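import Pool.Agent.H525.EX.Stm

/-!
# The contiguity relation for `ε = -1`

With `t = 2 s + 1`, `c = (-1) ^ s P`: the arrays `E0`, `E1` satisfy the functional equations of level
`s + 1` and the row sums of `E0` vanish, so `E1 = 0`.
-/

set_option autoImplicit false
set_option linter.all false

namespace Pool.Agent.H297.EX

open Pool.Agent.H525.EX

/-- the first array -/
noncomputable def E0 (c : ℝ) (t : ℤ) (u v u' : Arr) : Arr := fun n e =>
  c * (u (n - (t + 1)) (e - t) - u (n - (t + 1)) (e - (t + 1)) + u (n - (t + 1)) (e - (t + 2)) -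
    c * u (n - (2 * t + 1)) (e - 2 * t) + c * u (n - (2 * t + 1)) (e - (2 * t + 2)) -
    c ^ 2 * u (n - (3 * t + 1)) (e - (3 * t + 1))) -
  c * (v (n - (t + 1)) (e - t) - v (n - (t + 1)) (e - (t + 1)) +
    c ^ 2 * v (n - (3 * t + 1)) (e - 3 * t) - c ^ 2 * v (n - (3 * t + 1)) (e - (3 * t + 1))) -
  c * (u' (n - (t + 1)) (e - (t + 1)) - c ^ 2 * u' (n - (3 * t + 1)) (e - (3 * t + 1)))

/-- the second array -/
noncomputable def E1 (c : ℝ) (t : ℤ) (u v v' : Arr) : Arr := fun n e =>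
  -(u n e - u n (e - 1) + c ^ 2 * u (n - 2 * t) (e - 2 * t) -
    c ^ 2 * u (n - 2 * t) (e - (2 * t + 1))) +
  (v n e - c * v (n - t) (e - (t - 1)) + c * v (n - t) (e - (t + 1)) -
    c ^ 2 * v (n - 2 * t) (e - (2 * t - 1)) + c ^ 2 * v (n - 2 * t) (e - 2 * t) -
    c ^ 2 * v (n - 2 * t) (e - (2 * t + 1))) -
  c * (v' (n - (t + 1)) (e - (t + 1)) - c ^ 2 * v' (n - (3 * t + 1)) (e - (3 * t + 1)))

theorem FA {c : ℝ} {t : ℤ} {u v u' v' : Arr}
    (hA : ∀ n e : ℤ, u n e - c * v (n - t) (e - t + 2) = u e n - c * v (e - t) (n - t + 2))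
    (hB : ∀ n e : ℤ, u n (e + 1) - v n (e + 1) = u e (n + 1) - v e (n + 1))
    (hA' : ∀ n e : ℤ, u' n e + c * v' (n - t - 2) (e - t) = u' e n + c * v' (e - t - 2) (n - t))
    (n e : ℤ) :
    E0 c t u v u' n e + c * E1 c t u v v' (n - t - 2) (e - t) =
      E0 c t u v u' e n + c * E1 c t u v v' (e - t - 2) (n - t) := by
  have a1 := hA (n - t - 2) (e - t - 1)
  have a2 := hA (n - t - 1) (e - t - 2)
  have a3 := hA (n - 2 * t - 2) (e - 2 * t - 1)
  have a4 := hA (n - 2 * t - 1) (e - 2 * t - 2)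
  have b1 := hB (n - t - 1) (e - t - 1)
  have b2 := hB (n - 2 * t - 1) (e - 2 * t - 1)
  have b3 := hB (n - 2 * t - 2) (e - 2 * t - 2)
  have b4 := hB (n - 3 * t - 2) (e - 3 * t - 2)
  have b5 := hB (n - t - 2) (e - t - 1)
  have b6 := hB (n - t - 1) (e - t - 2)
  have b7 := hB (n - 3 * t - 2) (e - 3 * t - 1)
  have b8 := hB (n - 3 * t - 1) (e - 3 * t - 2)
  have d1 := hA' (n - t - 1) (e - t - 1)
  have d2 := hA' (n - 3 * t - 1) (e - 3 * t - 1)
  unfold E0 E1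
  linear_combination (norm := ring_nf) c * a1 + c * a2 + c ^ 2 * a3 + c ^ 2 * a4 + c * b1 -
    c ^ 2 * b2 - c ^ 2 * b3 + c ^ 3 * b4 - c * b5 - c * b6 - c ^ 3 * b7 - c ^ 3 * b8 - c * d1 +
    c ^ 3 * d2

theorem FB {c : ℝ} {t : ℤ} {u v u' v' : Arr}
    (hA : ∀ n e : ℤ, u n e - c * v (n - t) (e - t + 2) = u e n - c * v (e - t) (n - t + 2))
    (hB : ∀ n e : ℤ, u n (e + 1) - v n (e + 1) = u e (n + 1) - v e (n + 1))
    (hB' : ∀ n e : ℤ, u' n (e + 1) - v' n (e + 1) = u' e (n + 1) - v' e (n + 1))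
    (n e : ℤ) :
    E0 c t u v u' n (e + 1) - E1 c t u v v' n (e + 1) =
      E0 c t u v u' e (n + 1) - E1 c t u v v' e (n + 1) := by
  have a1 := hA (n - t - 1) (e - t - 1)
  have a2 := hA (n - 2 * t - 1) (e - 2 * t - 1)
  have a3 := hA n e
  have a4 := hA (n - t) (e - t)
  have b1 := hB n e
  have b2 := hB (n - 2 * t) (e - 2 * t)
  have b3 := hB (n - t - 1) (e - t - 1)
  have b4 := hB (n - 3 * t - 1) (e - 3 * t - 1)
  have b5 := hB (n - t - 1) (e - t)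
  have b6 := hB (n - t) (e - t - 1)
  have b7 := hB (n - 2 * t - 1) (e - 2 * t)
  have b8 := hB (n - 2 * t) (e - 2 * t - 1)
  have d1 := hB' (n - t - 1) (e - t - 1)
  have d2 := hB' (n - 3 * t - 1) (e - 3 * t - 1)
  unfold E0 E1
  linear_combination (norm := ring_nf) c * a1 + c ^ 2 * a2 - a3 - c * a4 + b1 + c ^ 2 * b2 -
    c * b3 - c ^ 3 * b4 + c * b5 + c * b6 - c ^ 2 * b7 - c ^ 2 * b8 - c * d1 + c ^ 3 * d2

theorem UA {c w : ℝ} {t n : ℤ} {u v u' : Arr}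
    (h1 : ∀ e, u (n - (t + 1)) (2 * (n - (t + 1)) - e) = w * u (n - (t + 1)) e)
    (h2 : ∀ e, u (n - (2 * t + 1)) (2 * (n - (2 * t + 1)) - e) = -(w * u (n - (2 * t + 1)) e))
    (h3 : ∀ e, u (n - (3 * t + 1)) (2 * (n - (3 * t + 1)) - e) = w * u (n - (3 * t + 1)) e)
    (g1 : ∀ e, v (n - (t + 1)) (2 * (n - (t + 1)) + 1 - e) = -(w * v (n - (t + 1)) e))
    (g3 : ∀ e, v (n - (3 * t + 1)) (2 * (n - (3 * t + 1)) + 1 - e) = -(w * v (n - (3 * t + 1)) e))
    (k1 : ∀ e, u' (n - (t + 1)) (2 * (n - (t + 1)) - e) = w * u' (n - (t + 1)) e)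
    (k3 : ∀ e, u' (n - (3 * t + 1)) (2 * (n - (3 * t + 1)) - e) = w * u' (n - (3 * t + 1)) e)
    (e : ℤ) : E0 c t u v u' n (2 * n - e) = w * E0 c t u v u' n e := by
  have p1 := h1 (e - t - 2)
  have p2 := h1 (e - t - 1)
  have p3 := h1 (e - t)
  have p4 := h2 (e - 2 * t - 2)
  have p5 := h2 (e - 2 * t)
  have p6 := h3 (e - 3 * t - 1)
  have q1 := g1 (e - t - 1)
  have q2 := g1 (e - t)
  have q3 := g3 (e - 3 * t - 1)
  have q4 := g3 (e - 3 * t)
  have r1 := k1 (e - t - 1)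
  have r2 := k3 (e - 3 * t - 1)
  unfold E0
  linear_combination (norm := ring_nf) c * p1 - c * p2 + c * p3 - c ^ 2 * p4 + c ^ 2 * p5 -
    c ^ 3 * p6 - c * q1 + c * q2 - c ^ 3 * q3 + c ^ 3 * q4 - c * r1 + c ^ 3 * r2

theorem VA {c w : ℝ} {t n : ℤ} {u v v' : Arr}
    (h1 : ∀ e, u n (2 * n - e) = w * u n e)
    (h2 : ∀ e, u (n - 2 * t) (2 * (n - 2 * t) - e) = w * u (n - 2 * t) e)
    (g0 : ∀ e, v n (2 * n + 1 - e) = -(w * v n e))
    (g1 : ∀ e, v (n - t) (2 * (n - t) + 1 - e) = w * v (n - t) e)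
    (g2 : ∀ e, v (n - 2 * t) (2 * (n - 2 * t) + 1 - e) = -(w * v (n - 2 * t) e))
    (k1 : ∀ e, v' (n - (t + 1)) (2 * (n - (t + 1)) + 1 - e) = -(w * v' (n - (t + 1)) e))
    (k3 : ∀ e, v' (n - (3 * t + 1)) (2 * (n - (3 * t + 1)) + 1 - e) =
      -(w * v' (n - (3 * t + 1)) e))
    (e : ℤ) : E1 c t u v v' n (2 * n + 1 - e) = -(w * E1 c t u v v' n e) := by
  have p1 := h1 (e - 1)
  have p2 := h1 e
  have p3 := h2 (e - 2 * t - 1)
  have p4 := h2 (e - 2 * t)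
  have q1 := g0 e
  have q2 := g1 (e - t - 1)
  have q3 := g1 (e - t + 1)
  have q4 := g2 (e - 2 * t - 1)
  have q5 := g2 (e - 2 * t)
  have q6 := g2 (e - 2 * t + 1)
  have r1 := k1 (e - t - 1)
  have r2 := k3 (e - 3 * t - 1)
  unfold E1
  linear_combination (norm := ring_nf) -p1 + p2 - c ^ 2 * p3 + c ^ 2 * p4 + q1 - c * q2 + c * q3 -
    c ^ 2 * q4 + c ^ 2 * q5 - c ^ 2 * q6 - c * r1 + c ^ 3 * r2

/-- the row sums of a shifted array -/
theorem sm_sh {f : Arr} (h1 : ∀ n e : ℤ, e < -n → f n e = 0)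
    (h2 : ∀ n e : ℤ, 3 * n + 1 < e → f n e = 0) (n m j : ℤ) (c1 : m ≤ n + j)
    (c2 : 3 * m + j ≤ 3 * n) :
    ∑ e ∈ Finset.Icc (-n) (3 * n + 1), f m (e - j) = sm f m := by
  unfold sm
  have h3 : ∑ e ∈ Finset.Icc (-n) (3 * n + 1), f m (e - j) =
      ∑ e ∈ Finset.Icc (-n - j) (3 * n + 1 - j), f m e := by
    refine Finset.sum_nbij' (fun e => e - j) (fun e => e + j) ?_ ?_ ?_ ?_ ?_
    · intro e he
      rw [Finset.mem_Icc] at he ⊢
      omega
    · intro e he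
      rw [Finset.mem_Icc] at he ⊢
      omega
    · intro e _
      simp
    · intro e _
      simp
    · intro e _
      rfl
  rw [h3]
  symm
  refine Finset.sum_subset ?_ ?_
  · intro e he
    rw [Finset.mem_Icc] at he ⊢
    omega
  · intro e _ he
    rw [Finset.mem_Icc] at he
    by_cases h4 : e < -m
    · exact h1 m e h4
    · exact h2 m e (by omega)

theorem sm_E0 {c : ℝ} {t : ℤ} (ht : 1 ≤ t) {u v u' : Arr}
    (us : ∀ n e : ℤ, e < -n → u n e = 0) (us' : ∀ n e : ℤ, 3 * n + 1 < e → u n e = 0)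
    (vs : ∀ n e : ℤ, e < -n → v n e = 0) (vs' : ∀ n e : ℤ, 3 * n + 1 < e → v n e = 0)
    (ws : ∀ n e : ℤ, e < -n → u' n e = 0) (ws' : ∀ n e : ℤ, 3 * n + 1 < e → u' n e = 0)
    (hu : ∀ n : ℤ, sm u n = if n = 0 then 1 else 0) (hw : ∀ n : ℤ, sm u' n = if n = 0 then 1 else 0)
    (n : ℤ) : sm (E0 c t u v u') n = 0 := by
  have a1 := sm_sh us us' n (n - (t + 1)) t (by omega) (by omega)
  have a2 := sm_sh us us' n (n - (t + 1)) (t + 1) (by omega) (by omega)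
  have a3 := sm_sh us us' n (n - (t + 1)) (t + 2) (by omega) (by omega)
  have a4 := sm_sh us us' n (n - (2 * t + 1)) (2 * t) (by omega) (by omega)
  have a5 := sm_sh us us' n (n - (2 * t + 1)) (2 * t + 2) (by omega) (by omega)
  have a6 := sm_sh us us' n (n - (3 * t + 1)) (3 * t + 1) (by omega) (by omega)
  have b1 := sm_sh vs vs' n (n - (t + 1)) t (by omega) (by omega)
  have b2 := sm_sh vs vs' n (n - (t + 1)) (t + 1) (by omega) (by omega)
  have b3 := sm_sh vs vs' n (n - (3 * t + 1)) (3 * t) (by omega) (by omega)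
  have b4 := sm_sh vs vs' n (n - (3 * t + 1)) (3 * t + 1) (by omega) (by omega)
  have d1 := sm_sh ws ws' n (n - (t + 1)) (t + 1) (by omega) (by omega)
  have d2 := sm_sh ws ws' n (n - (3 * t + 1)) (3 * t + 1) (by omega) (by omega)
  rw [show sm (E0 c t u v u') n = ∑ e ∈ Finset.Icc (-n) (3 * n + 1), E0 c t u v u' n e from rfl]
  unfold E0
  simp only [Finset.sum_sub_distrib, Finset.sum_add_distrib, ← Finset.mul_sum]
  rw [a1, a2, a3, a4, a5, a6, b1, b2, b3, b4, d1, d2, hu (n - (t + 1)), hu (n - (3 * t + 1)),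
    hw (n - (t + 1)), hw (n - (3 * t + 1))]
  ring

theorem E0_zero {c : ℝ} {t : ℤ} (ht : 1 ≤ t) {u v u' : Arr}
    (un : ∀ n e : ℤ, n < 0 → u n e = 0) (vn : ∀ n e : ℤ, n < 0 → v n e = 0)
    (wn : ∀ n e : ℤ, n < 0 → u' n e = 0) (n e : ℤ) (hn : n < 0) : E0 c t u v u' n e = 0 := by
  have a1 : ∀ e, u (n - (t + 1)) e = 0 := fun e => un _ _ (by omega)
  have a2 : ∀ e, u (n - (2 * t + 1)) e = 0 := fun e => un _ _ (by omega)
  have a3 : ∀ e, u (n - (3 * t + 1)) e = 0 := fun e => un _ _ (by omega)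
  have b1 : ∀ e, v (n - (t + 1)) e = 0 := fun e => vn _ _ (by omega)
  have b3 : ∀ e, v (n - (3 * t + 1)) e = 0 := fun e => vn _ _ (by omega)
  have d1 : ∀ e, u' (n - (t + 1)) e = 0 := fun e => wn _ _ (by omega)
  have d3 : ∀ e, u' (n - (3 * t + 1)) e = 0 := fun e => wn _ _ (by omega)
  unfold E0
  simp only [a1, a2, a3, b1, b3, d1, d3]
  ring

theorem E1_zero {c : ℝ} {t : ℤ} (ht : 1 ≤ t) {u v v' : Arr}
    (un : ∀ n e : ℤ, n < 0 → u n e = 0) (vn : ∀ n e : ℤ, n < 0 → v n e = 0)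
    (wn : ∀ n e : ℤ, n < 0 → v' n e = 0) (n e : ℤ) (hn : n < 0) : E1 c t u v v' n e = 0 := by
  have a1 : ∀ e, u n e = 0 := fun e => un _ _ (by omega)
  have a2 : ∀ e, u (n - 2 * t) e = 0 := fun e => un _ _ (by omega)
  have b1 : ∀ e, v n e = 0 := fun e => vn _ _ (by omega)
  have b2 : ∀ e, v (n - t) e = 0 := fun e => vn _ _ (by omega)
  have b3 : ∀ e, v (n - 2 * t) e = 0 := fun e => vn _ _ (by omega)
  have d1 : ∀ e, v' (n - (t + 1)) e = 0 := fun e => wn _ _ (by omega)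
  have d3 : ∀ e, v' (n - (3 * t + 1)) e = 0 := fun e => wn _ _ (by omega)
  unfold E1
  simp only [a1, a2, b1, b2, b3, d1, d3]
  ring

theorem E0_low {c : ℝ} {t : ℤ} (ht : 1 ≤ t) {u v u' : Arr}
    (us : ∀ n e : ℤ, e < -n → u n e = 0) (vs : ∀ n e : ℤ, e < -n → v n e = 0)
    (ws : ∀ n e : ℤ, e < -n → u' n e = 0) (n e : ℤ) (hn : e < -n) : E0 c t u v u' n e = 0 := by
  unfold E0
  rw [us (n - (t + 1)) (e - t) (by omega), us (n - (t + 1)) (e - (t + 1)) (by omega),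
    us (n - (t + 1)) (e - (t + 2)) (by omega), us (n - (2 * t + 1)) (e - 2 * t) (by omega),
    us (n - (2 * t + 1)) (e - (2 * t + 2)) (by omega),
    us (n - (3 * t + 1)) (e - (3 * t + 1)) (by omega),
    vs (n - (t + 1)) (e - t) (by omega), vs (n - (t + 1)) (e - (t + 1)) (by omega),
    vs (n - (3 * t + 1)) (e - 3 * t) (by omega), vs (n - (3 * t + 1)) (e - (3 * t + 1)) (by omega),
    ws (n - (t + 1)) (e - (t + 1)) (by omega), ws (n - (3 * t + 1)) (e - (3 * t + 1)) (by omega)]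
  ring

theorem E1_low {c : ℝ} {t : ℤ} (ht : 1 ≤ t) {u v v' : Arr}
    (us : ∀ n e : ℤ, e < -n → u n e = 0) (vs : ∀ n e : ℤ, e < -n → v n e = 0)
    (ws : ∀ n e : ℤ, e < -n → v' n e = 0) (n e : ℤ) (hn : e < -n) : E1 c t u v v' n e = 0 := by
  unfold E1
  rw [us n e (by omega), us n (e - 1) (by omega), us (n - 2 * t) (e - 2 * t) (by omega),
    us (n - 2 * t) (e - (2 * t + 1)) (by omega), vs n e (by omega),
    vs (n - t) (e - (t - 1)) (by omega), vs (n - t) (e - (t + 1)) (by omega),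
    vs (n - 2 * t) (e - (2 * t - 1)) (by omega), vs (n - 2 * t) (e - 2 * t) (by omega),
    vs (n - 2 * t) (e - (2 * t + 1)) (by omega),
    ws (n - (t + 1)) (e - (t + 1)) (by omega), ws (n - (3 * t + 1)) (e - (3 * t + 1)) (by omega)]
  ring

/-- upper bound of the support -/
theorem up_u {s : ℕ} {ε P : ℝ} {u v : Arr} (h : Pre s ε P u v) (hε : ε ≠ 0) (n e : ℤ)
    (he : 3 * n + 1 < e) : u n e = 0 := by
  have h1 := h.ua n e
  rw [h.us n (2 * n - e) (by omega)] at h1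
  exact (mul_eq_zero.1 h1.symm).resolve_left (zpow_ne_zero n hε)

theorem up_v {s : ℕ} {ε P : ℝ} {u v : Arr} (h : Pre s ε P u v) (hε : ε ≠ 0) (n e : ℤ)
    (he : 3 * n + 1 < e) : v n e = 0 := by
  have h1 := h.va n e
  rw [h.vs n (2 * n + 1 - e) (by omega), zero_eq_neg] at h1
  exact (mul_eq_zero.1 h1).resolve_left (zpow_ne_zero n hε)

theorem sgn_even (n m : ℤ) (h : Even m) : (-1 : ℝ) ^ (n - m) = (-1) ^ n := by
  rw [zpow_sub₀ (by norm_num), h.neg_one_zpow, div_one]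

theorem sgn_odd (n m : ℤ) (h : Odd m) : (-1 : ℝ) ^ (n - m) = -(-1) ^ n := by
  rw [zpow_sub₀ (by norm_num), h.neg_one_zpow, div_neg, div_one]

theorem pre {s : ℕ} {P : ℝ} {u v u' v' : Arr} (h : Pre s (-1) P u v)
    (h' : Pre (s + 1) (-1) P u' v') :
    Pre (s + 1) (-1) P (E0 ((-1) ^ s * P) (2 * s + 1) u v u')
      (E1 ((-1) ^ s * P) (2 * s + 1) u v v') := by
  obtain ⟨t, ht⟩ : ∃ t : ℤ, t = 2 * s + 1 := ⟨_, rfl⟩
  obtain ⟨c, hc⟩ : ∃ c : ℝ, c = (-1) ^ s * P := ⟨_, rfl⟩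
  have ht1 : 1 ≤ t := by omega
  have hto : Odd t := ⟨s, ht⟩
  have o1 : Even (t + 1) := hto.add_one
  have o2 : Even (2 * t) := even_two_mul t
  have o3 : Odd (2 * t + 1) := o2.add_one
  have o4 : Even (3 * t + 1) := by
    have : 3 * t + 1 = 2 * t + (t + 1) := by ring
    rw [this]
    exact o2.add o1
  have hA : ∀ n e : ℤ, u n e - c * v (n - t) (e - t + 2) = u e n - c * v (e - t) (n - t + 2) := by
    intro n e
    have h1 := h.A n e
    rw [← hc] at h1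
    have e1 : ∀ x : ℤ, x - (2 * (s : ℤ) + 1) = x - t := by intro x; rw [ht]
    have e2 : ∀ x : ℤ, x - (2 * (s : ℤ) - 1) = x - t + 2 := by intro x; rw [ht]; ring
    rw [e1, e2, e1, e2] at h1
    exact h1
  have hcn : (-1 : ℝ) ^ (s + 1) * P = -c := by
    rw [hc, pow_succ]
    ring
  have f1 : ∀ x : ℤ, x - (2 * ((s + 1 : ℕ) : ℤ) + 1) = x - t - 2 := by
    intro x
    rw [ht]
    push_cast
    ring
  have f2 : ∀ x : ℤ, x - (2 * ((s + 1 : ℕ) : ℤ) - 1) = x - t := by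
    intro x
    rw [ht]
    push_cast
    ring
  have hA' : ∀ n e : ℤ, u' n e + c * v' (n - t - 2) (e - t) =
      u' e n + c * v' (e - t - 2) (n - t) := by
    intro n e
    have h1 := h'.A n e
    rw [hcn, f1, f2, f1, f2] at h1
    linear_combination h1
  rw [← hc, ← ht]
  refine ⟨?_, ?_, ?_, ?_, ?_, ?_, ?_, ?_⟩
  · exact E0_zero ht1 h.un h.vn h'.un
  · exact E1_zero ht1 h.un h.vn h'.vn
  · exact E0_low ht1 h.us h.vs h'.us
  · exact E1_low ht1 h.us h.vs h'.vs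
  · intro n e
    refine UA ?_ ?_ ?_ ?_ ?_ ?_ ?_ e
    · intro e
      rw [h.ua, sgn_even _ _ o1]
    · intro e
      rw [h.ua, sgn_odd _ _ o3, neg_mul]
    · intro e
      rw [h.ua, sgn_even _ _ o4]
    · intro e
      rw [h.va, sgn_even _ _ o1]
    · intro e
      rw [h.va, sgn_even _ _ o4]
    · intro e
      rw [h'.ua, sgn_even _ _ o1]
    · intro e
      rw [h'.ua, sgn_even _ _ o4]
  · intro n e
    refine VA ?_ ?_ ?_ ?_ ?_ ?_ ?_ e
    · intro e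
      rw [h.ua]
    · intro e
      rw [h.ua, sgn_even _ _ o2]
    · intro e
      rw [h.va]
    · intro e
      rw [h.va, sgn_odd _ _ hto, neg_mul, neg_neg]
    · intro e
      rw [h.va, sgn_even _ _ o2]
    · intro e
      rw [h'.va, sgn_even _ _ o1]
    · intro e
      rw [h'.va, sgn_even _ _ o4]
  · intro n e
    rw [hcn, f1, f2, f1, f2]
    have h1 := FA (u := u) (v := v) (u' := u') (v' := v') hA h.B hA' n e
    linear_combination h1
  · exact FB hA h.B h'.B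

/-- **C2.** -/
theorem t_c2 : Pool.Agent.H525.EX.S_c2 := by
  intro hom s P u v u' v' h h' n e
  have hε : (-1 : ℝ) ≠ 0 := by norm_num
  have hz := (hom (s + 1) (-1) P _ _ (pre h.pre h'.pre) (fun n => by
    refine sm_E0 (by omega) h.pre.us (up_u h.pre hε) h.pre.vs (up_v h.pre hε) h'.pre.us
      (up_u h'.pre hε) h.N h'.N n) n e).2
  obtain ⟨c, hc⟩ : ∃ c : ℝ, c = (-1) ^ s * P := ⟨_, rfl⟩
  have hc2 : c ^ 2 = P ^ 2 := by
    rw [hc, mul_pow, ← pow_mul, mul_comm s 2, pow_mul]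
    norm_num
  rw [← hc] at hz ⊢
  unfold E1 at hz
  rw [hc2] at hz
  linear_combination (norm := ring_nf) (-1) * hz

end Pool.Agent.H297.EX
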